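import Pool.Agent.H16.FK.TargetsA

/-!
Board hci_modules, row FPX: proper parts of rows with the same type can be exchanged.
-/

set_option autoImplicit false

namespace Pool.Agent.H40.FK

open Set Pool.Agent.H75.HCI Pool.Agent.H16.FK

theorem prt_move {kx k : ℕ} {L : Type} {T : List (Idx kx k) → L} (hp : PatInv T)
    (i m i' m' : ℕ) (a : List (Fin k)) :
    T (prt i' m' a) = T (prt i m a) := by
  have h := hp (fun p => (i', p.2.elim Sum.inl fun q => Sum.inr (m', q.2)))
    {p | ∃ y, p = (i, Sum.inr (m, y))} ?_ (prt i m a) ?_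
  · rw [← h]
    congr 1
    simp [prt, Function.comp_def]
  · refine ⟨?_, ?_, ?_⟩
    · rintro p ⟨y, rfl⟩
      rfl
    · rintro p ⟨y, rfl⟩ p' ⟨y', rfl⟩
      simp
    · rintro p ⟨y, rfl⟩ p' ⟨y', rfl⟩ _ u u' v v' h1 h2 h3 h4
      simp only [Sum.elim_inr, Sum.inr.injEq] at h1 h2 h3 h4
      subst h1 h2 h3 h4
      simp
  · intro x hx
    simp only [prt, List.mem_map] at hx
    obtain ⟨y, _, rfl⟩ := hx
    exact ⟨y, rfl⟩

theorem pf_FPX : T_FPX := by
  intro kx k L T hT l i m i' m' a a' ha ha' hlen hk hTT hm hm'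
  obtain ⟨n, hn⟩ : ∃ n, Blw n l := by
    refine ⟨bd l, ?_⟩
    intro p hp
    have : p.1 + 1 ≤ bd l := by
      unfold bd
      exact List.single_le_sum (fun x _ => Nat.zero_le x) _ (List.mem_map.2 ⟨p, hp, rfl⟩)
    omega
  have hmn : Miss n 0 l := by
    intro y hy
    have := hn _ hy
    simp at this
  have h1 : T (l ++ prt i m a) = T (l ++ prt n 0 a) := hT.t3 l i m n 0 a ha hk hm hmn
  rw [h1]
  refine hT.t4 n l (prt n 0 a) i' m' a' hn ?_ ?_ ?_ ha' (hlen ▸ hk) hm' ?_
  · intro p hp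
    simp only [prt, List.mem_map] at hp
    obtain ⟨y, _, rfl⟩ := hp
    exact le_refl _
  · unfold prt
    refine List.Nodup.map ?_ ha
    intro x y hxy
    simpa using hxy
  · simp [prt, hlen]
  · rw [prt_move hT.pat i m n 0 a, hTT]

end Pool.Agent.H40.FK
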