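import Pool.Agent.H16.FK.TargetsA

/-!
Board hci_modules, row TWI: symmetric far rows may be permuted and twisted.
-/

set_option autoImplicit false

namespace Pool.Agent.H40.FK

open Set Pool.Agent.H75.HCI Pool.Agent.H16.FK

section

variable {kx k : ℕ} {L : Type}

theorem prt_move' {T : List (Idx kx k) → L} (hp : PatInv T) (i m i' m' : ℕ)
    (a : List (Fin k)) : T (prt i' m' a) = T (prt i m a) := by
  have h := hp (fun p => (i', p.2.elim Sum.inl fun q => Sum.inr (m', q.2)))
    {p | ∃ y, p = (i, Sum.inr (m, y))} ?_ (prt i m a) ?_
  · rw [← h]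
    congr 1
    simp [prt, Function.comp_def]
  · refine ⟨?_, ?_, ?_⟩
    · rintro p ⟨y, rfl⟩
      rfl
    · rintro p ⟨y, rfl⟩ p' ⟨y', rfl⟩
      simp
    · rintro p ⟨y, rfl⟩ p' ⟨y', rfl⟩ _ u u' v v' h1 h2 h3 h4
      simp only [Sum.elim_inr, Sum.inr.injEq] at h1 h2 h3 h4
      subst h1 h2 h3 h4
      simp
  · intro x hx
    simp only [prt, List.mem_map] at hx
    obtain ⟨y, _, rfl⟩ := hx
    exact ⟨y, rfl⟩

/-- Full types: lists which are obtained in the same way from lists of the same type. -/
theorem sel_forall2 {T : List (Idx kx k) → L} (hf : FTx T) {m m' : List (Idx kx k)}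
    (hm : m.length = m'.length) (hT : T m = T m') {t t' : List (Idx kx k)}
    (h : List.Forall₂ (fun x x' => (x, x') ∈ m.zip m') t t') : T t = T t' := by
  have key : ∃ w : List ℕ, t = sel m w ∧ t' = sel m' w := by
    induction h with
    | nil => exact ⟨[], rfl, rfl⟩
    | @cons x x' t t' hx _ ih =>
      obtain ⟨w, h1, h2⟩ := ih
      obtain ⟨c, hc, hc'⟩ := List.mem_iff_getElem.1 hx
      rw [List.getElem_zip, Prod.mk.injEq] at hc'
      have hc1 : c < m.length := by
        rw [List.length_zip] at hc
        omega
      have hc2 : c < m'.length := by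
        rw [List.length_zip] at hc
        omega
      refine ⟨c :: w, ?_, ?_⟩
      · rw [h1]
        unfold sel
        rw [List.filterMap_cons, List.getElem?_eq_getElem hc1, hc'.1]
      · rw [h2]
        unfold sel
        rw [List.filterMap_cons, List.getElem?_eq_getElem hc2, hc'.2]
  obtain ⟨w, h1, h2⟩ := key
  rw [h1, h2]
  exact hf m m' w hm hT

/-- Renaming of chunks. -/
theorem ren_chunks {T : List (Idx kx k) → L} (hp : PatInv T) (f : ℕ → ℕ) (C : Set ℕ)
    (hf : StrictMonoOn f C) (l : List (Idx kx k)) (hl : ∀ p ∈ l, p.1 ∈ C) :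
    T (l.map fun p => (f p.1, p.2)) = T l := by
  refine hp (fun p => (f p.1, p.2)) {p | p.1 ∈ C} ⟨?_, ?_, ?_⟩ l hl
  · intro p _
    rfl
  · intro p hp q hq
    exact hf.lt_iff_lt hp hq
  · intro p _ q _ _ u u' v v' h1 h2 h3 h4
    simp only at h3 h4
    rw [h1, Sum.inr.injEq] at h3
    rw [h2, Sum.inr.injEq] at h4
    rw [h3, h4]

/-- A renaming of increasing lists of chunks. -/
theorem exists_ren (n : ℕ) (js js' : List ℕ) (h : js.Pairwise (· < ·)) (h' : js'.Pairwise (· < ·))
    (hn : ∀ j ∈ js, n ≤ j) (hn' : ∀ j ∈ js', n ≤ j) (hl : js.length = js'.length) :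
    ∃ f : ℕ → ℕ, (∀ c < n, f c = c) ∧ js.map f = js' ∧
      StrictMonoOn f ({c | c < n} ∪ {c | c ∈ js}) := by
  classical
  have hnd : js.Nodup := h.imp fun hab => ne_of_lt hab
  set f : ℕ → ℕ := fun c => if c < n then c else js'.getD (js.idxOf c) 0 with hfdef
  have hf : ∀ (i : ℕ) (hi : i < js.length), f js[i] = js'[i]'(hl ▸ hi) := by
    intro i hi
    have h1 : ¬ js[i] < n := not_lt.2 (hn _ (List.getElem_mem hi))
    have h2 : js.idxOf js[i] = i := List.Nodup.idxOf_getElem hnd i hi
    simp only [hfdef, if_neg h1, h2]
    rw [List.getD_eq_getElem _ _ (hl ▸ hi)]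
  refine ⟨f, ?_, ?_, ?_⟩
  · intro c hc
    simp [hfdef, hc]
  · refine List.ext_getElem (by simp [hl]) fun i h1 h2 => ?_
    rw [List.getElem_map]
    exact hf i (by simpa using h1)
  · have hlow : ∀ c < n, f c = c := fun c hc => by simp [hfdef, hc]
    intro x hx y hy hxy
    rcases hx with hx | hx
    · rcases hy with hy | hy
      · rw [hlow x hx, hlow y hy]
        exact hxy
      · obtain ⟨i, hi, rfl⟩ := List.mem_iff_getElem.1 hy
        rw [hlow x hx, hf i hi]
        exact lt_of_lt_of_le hx (hn' _ (List.getElem_mem _))
    · obtain ⟨i, hi, rfl⟩ := List.mem_iff_getElem.1 hx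
      rcases hy with hy | hy
      · exact absurd (lt_trans hxy hy) (not_lt.2 (hn _ (List.getElem_mem hi)))
      · obtain ⟨j, hj, rfl⟩ := List.mem_iff_getElem.1 hy
        rw [hf i hi, hf j hj]
        have hij : i < j := by
          rcases lt_trichotomy i j with h3 | h3 | h3
          · exact h3
          · subst h3
            exact absurd hxy (lt_irrefl _)
          · exact absurd hxy (not_lt.2 (le_of_lt (List.pairwise_iff_getElem.1 h j i hj hi h3)))
        exact List.pairwise_iff_getElem.1 h' i j (hl ▸ hi) (hl ▸ hj) hij

theorem rws_map (f : ℕ → ℕ) (js : List ℕ) :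
    (rws js : List (Idx kx k)).map (fun p => (f p.1, p.2)) = rws (js.map f) := by
  unfold rws
  rw [List.map_flatten, List.map_map, List.map_map]
  congr 2
  funext j
  simp [row, prt, Function.comp_def]

theorem mem_rws {js : List ℕ} {p : Idx kx k} (h : p ∈ rws js) : p.1 ∈ js := by
  unfold rws at h
  rw [List.mem_flatten] at h
  obtain ⟨r, hr, hp⟩ := h
  rw [List.mem_map] at hr
  obtain ⟨j, hj, rfl⟩ := hr
  simp only [row, prt, List.mem_map] at hp
  obtain ⟨y, _, rfl⟩ := hp
  exact hj

theorem mem_trw {js : List ℕ} {as : List (List (Fin k))} {p : Idx kx k} (h : p ∈ trw js as) :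
    p.1 ∈ js := by
  unfold trw at h
  rw [List.mem_flatten] at h
  obtain ⟨r, hr, hp⟩ := h
  rw [List.mem_iff_getElem] at hr
  obtain ⟨i, hi, rfl⟩ := hr
  rw [List.getElem_zipWith] at hp
  simp only [prt, List.mem_map] at hp
  obtain ⟨y, _, rfl⟩ := hp
  exact List.getElem_mem _

/-- Step (F): the chunk numbers of symmetric far rows may be renamed. -/
theorem step_F {T : List (Idx kx k) → L} (hp : PatInv T) {q : ℕ} (hq : FarS T q) {n : ℕ}
    {l : List (Idx kx k)} (hl : Blw n l) {js js' : List ℕ} (h : js.Nodup) (h' : js'.Nodup)
    (hn : ∀ j ∈ js, n ≤ j) (hn' : ∀ j ∈ js', n ≤ j) (hlen : js.length = js'.length)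
    (hlq : js.length ≤ q) : T (l ++ rws js) = T (l ++ rws js') := by
  have srt : ∀ js : List ℕ, js.Nodup → (∀ j ∈ js, n ≤ j) → js.length ≤ q →
      ∃ ks : List ℕ, ks.Pairwise (· < ·) ∧ (∀ j ∈ ks, n ≤ j) ∧ ks.length = js.length ∧
        T (l ++ rws js) = T (l ++ rws ks) := by
    intro js h hn hlq
    refine ⟨js.insertionSort (· ≤ ·), ?_, ?_, ?_, ?_⟩
    · have h1 : (js.insertionSort (· ≤ ·)).Pairwise (· ≤ ·) := List.pairwise_insertionSort _ _
      have h2 : (js.insertionSort (· ≤ ·)).Nodup := (List.perm_insertionSort _ js).nodup_iff.2 h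
      exact (h1.and h2).imp fun hab => lt_of_le_of_ne hab.1 hab.2
    · intro j hj
      exact hn j ((List.perm_insertionSort _ js).mem_iff.1 hj)
    · exact List.length_insertionSort _ _
    · have h1 : (js.insertionSort (· ≤ ·)).Pairwise (· ≤ ·) := List.pairwise_insertionSort _ _
      have h2 : (js.insertionSort (· ≤ ·)).Nodup := (List.perm_insertionSort _ js).nodup_iff.2 h
      exact hq n l (js.insertionSort (· ≤ ·)) js hl
        ((h1.and h2).imp fun hab => lt_of_le_of_ne hab.1 hab.2)
        (fun j hj => hn j ((List.perm_insertionSort _ js).mem_iff.1 hj))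
        (by rw [List.length_insertionSort]; exact hlq) (List.perm_insertionSort _ js).symm
  obtain ⟨ks, k1, k2, k3, k4⟩ := srt js h hn hlq
  obtain ⟨ks', k1', k2', k3', k4'⟩ := srt js' h' hn' (hlen ▸ hlq)
  rw [k4, k4']
  obtain ⟨f, f1, f2, f3⟩ := exists_ren n ks ks' k1 k1' k2 k2' (by rw [k3, k3', hlen])
  have h5 := ren_chunks hp f _ f3 (l ++ rws ks) (by
    intro p hp
    rw [List.mem_append] at hp
    rcases hp with hp | hp
    · exact Or.inl (hl p hp)
    · exact Or.inr (mem_rws hp))
  rw [List.map_append, rws_map, f2] at h5
  have h6 : l.map (fun p => (f p.1, p.2)) = l := by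
    refine (List.map_congr_left (g := id) fun p hp => ?_).trans (List.map_id l)
    simp only [id]
    rw [f1 p.1 (hl p hp)]
  rw [← h5, h6]

theorem zip_refl_mem {α : Type} {l : List α} {x : α} (hx : x ∈ l) : (x, x) ∈ l.zip l := by
  obtain ⟨i, hi, rfl⟩ := List.mem_iff_getElem.1 hx
  rw [List.mem_iff_getElem]
  exact ⟨i, by simpa using hi, by rw [List.getElem_zip]⟩

theorem length_row (i m : ℕ) : (row i m : List (Idx kx k)).length = k := by
  simp [row, prt]

theorem forall2_trw (R : Idx kx k → Idx kx k → Prop) : ∀ (js js' : List ℕ)
    (as : List (List (Fin k))), js.length = js'.length →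
    (∀ x x', (x, x') ∈ (rws js : List (Idx kx k)).zip (rws js') → R x x') →
    List.Forall₂ R (trw js as) (trw js' as) := by
  intro js
  induction js with
  | nil =>
    intro js' as hl _
    have : js' = [] := List.length_eq_zero_iff.1 hl.symm
    subst this
    simp [trw]
  | cons j js ih =>
    intro js' as hl hR
    cases js' with
    | nil => simp at hl
    | cons j' js' =>
      cases as with
      | nil => simp [trw]
      | cons a as =>
        have hz : (rws (j :: js) : List (Idx kx k)).zip (rws (j' :: js') : List (Idx kx k)) =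
            (row j 0 : List (Idx kx k)).zip (row j' 0 : List (Idx kx k)) ++
              (rws js : List (Idx kx k)).zip (rws js' : List (Idx kx k)) := by
          unfold rws
          rw [List.map_cons, List.map_cons, List.flatten_cons, List.flatten_cons,
            List.zip_append (by rw [length_row, length_row])]
        have ht : (trw (j :: js) (a :: as) : List (Idx kx k)) = prt j 0 a ++ trw js as := rfl
        have ht' : (trw (j' :: js') (a :: as) : List (Idx kx k)) = prt j' 0 a ++ trw js' as := rfl
        rw [ht, ht']
        refine List.rel_append ?_ (ih js' as (by simpa using hl) ?_)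
        · unfold prt
          rw [List.forall₂_map_left_iff, List.forall₂_map_right_iff, List.forall₂_same]
          intro y _
          refine hR _ _ ?_
          rw [hz, List.mem_append]
          left
          unfold row prt
          rw [List.zip_map', List.mem_map]
          exact ⟨y, List.mem_finRange y, rfl⟩
        · intro x x' hx
          refine hR x x' ?_
          rw [hz, List.mem_append]
          exact Or.inr hx

/-- Step (F'): the chunk numbers of twisted far rows may be renamed. -/
theorem step_F' {T : List (Idx kx k) → L} (hp : PatInv T) (hf : FTx T) {q : ℕ} (hq : FarS T q)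
    {n : ℕ} {l : List (Idx kx k)} (hl : Blw n l) {js js' : List ℕ} (h : js.Nodup)
    (h' : js'.Nodup) (hn : ∀ j ∈ js, n ≤ j) (hn' : ∀ j ∈ js', n ≤ j)
    (hlen : js.length = js'.length) (hlq : js.length ≤ q) (as : List (List (Fin k))) :
    T (l ++ trw js as) = T (l ++ trw js' as) := by
  have hlr : ∀ js : List ℕ, (rws js : List (Idx kx k)).length = js.length * k := by
    intro js
    induction js with
    | nil => simp [rws]
    | cons j js ih =>
      unfold rws at ih ⊢
      rw [List.map_cons, List.flatten_cons, List.length_append, length_row, ih, List.length_cons]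
      ring
  refine sel_forall2 hf (m := l ++ rws js) (m' := l ++ rws js') ?_
    (step_F hp hq hl h h' hn hn' hlen hlq) ?_
  · rw [List.length_append, List.length_append, hlr, hlr, hlen]
  · rw [List.zip_append rfl]
    refine List.rel_append ?_ ?_
    · rw [List.forall₂_same]
      intro x hx
      rw [List.mem_append]
      exact Or.inl (zip_refl_mem hx)
    · refine forall2_trw _ js js' as hlen ?_
      intro x x' hx
      rw [List.mem_append]
      exact Or.inr hx

/-- The twists `as` and `as'` have the same effect. -/
def Req (T : List (Idx kx k) → L) (n : ℕ) (l : List (Idx kx k)) (as as' : List (List (Fin k))) :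
    Prop :=
  ∀ js : List ℕ, js.Nodup → (∀ j ∈ js, n ≤ j) → js.length = as.length →
    T (l ++ trw js as) = T (l ++ trw js as')

theorem trw_snoc (js : List ℕ) (as : List (List (Fin k))) (j : ℕ) (a : List (Fin k))
    (h : js.length = as.length) :
    (trw (js ++ [j]) (as ++ [a]) : List (Idx kx k)) = trw js as ++ prt j 0 a := by
  unfold trw
  rw [List.zipWith_append h, List.flatten_append]
  simp

theorem length_trw : ∀ (js : List ℕ) (as : List (List (Fin k))), js.length = as.length →
    (∀ a ∈ as, a.length = k) → (trw js as : List (Idx kx k)).length = js.length * k := by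
  intro js
  induction js with
  | nil =>
    intro as _ _
    simp [trw]
  | cons j js ih =>
    intro as hl ha
    cases as with
    | nil => simp at hl
    | cons a as =>
      have ht : (trw (j :: js) (a :: as) : List (Idx kx k)) = prt j 0 a ++ trw js as := rfl
      rw [ht, List.length_append, ih as (by simpa using hl)
        (fun b hb => ha b (List.mem_cons_of_mem _ hb))]
      have : (prt j 0 a : List (Idx kx k)).length = k := by
        have h1 := ha a (List.mem_cons_self ..)
        unfold prt
        rw [List.length_map, h1]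
      rw [this, List.length_cons]
      ring

theorem req_last {T : List (Idx kx k) → L} (hp : PatInv T) (hf : FTx T) (hL : LAST T) {q : ℕ}
    (hq : FarS T q) {n : ℕ} {l : List (Idx kx k)} (hl : Blw n l) (as : List (List (Fin k)))
    (a : List (Fin k)) (ha : Tw T a) (hlq : as.length + 1 ≤ q) :
    Req T n l (as ++ [a]) (as ++ [List.finRange k]) := by
  intro js h1 h2 h3
  set js3 : List ℕ := (List.range as.length).map (fun i => n + i) with hjs3
  set js2 : List ℕ := js3 ++ [n + as.length] with hjs2
  have e1 : js3.length = as.length := by simp [hjs3]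
  have e2 : js2.length = js.length := by
    rw [h3, hjs2, List.length_append, e1]
    simp
  have hlt : ∀ j ∈ js3, n ≤ j ∧ j < n + as.length := by
    intro j hj
    rw [hjs3, List.mem_map] at hj
    obtain ⟨i, hi, rfl⟩ := hj
    rw [List.mem_range] at hi
    constructor <;> omega
  have e3 : js2.Nodup := by
    rw [hjs2, List.nodup_append]
    refine ⟨?_, List.nodup_singleton _, ?_⟩
    · rw [hjs3]
      exact List.nodup_range.map fun x y hxy => by
        have hxy' : n + x = n + y := hxy
        omega
    · intro x hx y hy hxy
      rw [List.mem_singleton] at hy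
      have := (hlt x hx).2
      omega
  have e4 : ∀ j ∈ js2, n ≤ j := by
    intro j hj
    rw [hjs2, List.mem_append, List.mem_singleton] at hj
    rcases hj with hj | hj
    · exact (hlt j hj).1
    · omega
  have h4 : js.length ≤ q := by
    rw [h3, List.length_append]
    simpa using hlq
  rw [step_F' hp hf hq hl h1 e3 h2 e4 e2.symm h4 (as ++ [a]),
    step_F' hp hf hq hl h1 e3 h2 e4 e2.symm h4 (as ++ [List.finRange k]), hjs2,
    trw_snoc _ _ _ _ e1, trw_snoc _ _ _ _ e1, ← List.append_assoc, ← List.append_assoc]
  refine hL (n + as.length) (l ++ trw js3 as) (prt (n + as.length) 0 a) ?_ ?_ ?_ ?_ ?_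
  · intro p hp
    rw [List.mem_append] at hp
    rcases hp with hp | hp
    · exact lt_of_lt_of_le (hl p hp) (Nat.le_add_right _ _)
    · exact (hlt p.1 (mem_trw hp)).2
  · intro p hp
    simp only [prt, List.mem_map] at hp
    obtain ⟨y, _, rfl⟩ := hp
    exact le_refl _
  · unfold prt
    refine List.Nodup.map ?_ ha.1
    intro x y hxy
    simpa using hxy
  · simp [prt, ha.2.1]
  · rw [prt_move' hp 0 0 (n + as.length) 0 a, ha.2.2]

theorem req_rot {T : List (Idx kx k) → L} (hf : FTx T) {n : ℕ} {l : List (Idx kx k)}
    (as as' : List (List (Fin k))) (a a' : List (Fin k)) (h : ∀ b ∈ as, b.length = k)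
    (h' : ∀ b ∈ as', b.length = k) (ha : a.length = k) (ha' : a'.length = k)
    (hlen : as.length = as'.length) (hR : Req T n l (as ++ [a]) (as' ++ [a'])) :
    Req T n l (a :: as) (a' :: as') := by
  intro js h1 h2 h3
  cases js with
  | nil => simp at h3
  | cons j js =>
    have h3' : js.length = as.length := by simpa using h3
    rw [List.nodup_cons] at h1
    have h4 := hR (js ++ [j]) (by
        rw [List.nodup_append]
        refine ⟨h1.2, List.nodup_singleton _, ?_⟩
        intro x hx y hy hxy
        rw [List.mem_singleton] at hy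
        subst hy
        exact h1.1 (hxy ▸ hx)) (by
        intro i hi
        rw [List.mem_append, List.mem_singleton] at hi
        refine h2 i ?_
        rw [List.mem_cons]
        exact hi.symm) (by simp [h3'])
    rw [trw_snoc _ _ _ _ h3', trw_snoc _ _ _ _ (h3'.trans hlen), ← List.append_assoc,
      ← List.append_assoc] at h4
    have ht : (trw (j :: js) (a :: as) : List (Idx kx k)) = prt j 0 a ++ trw js as := rfl
    have ht' : (trw (j :: js) (a' :: as') : List (Idx kx k)) = prt j 0 a' ++ trw js as' := rfl
    rw [ht, ht']
    have e1 : (trw js as : List (Idx kx k)).length = (trw js as' : List (Idx kx k)).length := by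
      rw [length_trw js as h3' h, length_trw js as' (h3'.trans hlen) h']
    have e2 : (prt j 0 a : List (Idx kx k)).length = (prt j 0 a' : List (Idx kx k)).length := by
      simp [prt, ha, ha']
    refine sel_forall2 hf ?_ h4 ?_
    · rw [List.length_append, List.length_append, List.length_append, List.length_append, e1, e2]
    · rw [List.zip_append (by rw [List.length_append, List.length_append, e1]),
        List.zip_append rfl]
      refine List.rel_append ?_ (List.rel_append ?_ ?_)
      · rw [List.forall₂_same]
        intro x hx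
        rw [List.mem_append, List.mem_append]
        exact Or.inl (Or.inl (zip_refl_mem hx))
      · rw [List.forall₂_iff_zip]
        refine ⟨e2, fun {x x'} hx => ?_⟩
        rw [List.mem_append]
        exact Or.inr hx
      · rw [List.forall₂_iff_zip]
        refine ⟨e1, fun {x x'} hx => ?_⟩
        rw [List.mem_append, List.mem_append]
        exact Or.inl (Or.inr hx)

theorem req_all {T : List (Idx kx k) → L} (hp : PatInv T) (hf : FTx T) (hL : LAST T) {q : ℕ}
    (hq : FarS T q) {n : ℕ} {l : List (Idx kx k)} (hl : Blw n l) : ∀ (as bs : List (List (Fin k))),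
    (∀ a ∈ as, Tw T a) → (∀ b ∈ bs, b.length = k) → as.length + bs.length ≤ q →
    Req T n l (as ++ bs) (List.replicate as.length (List.finRange k) ++ bs) := by
  intro as
  induction as with
  | nil =>
    intro bs _ _ _ js _ _ _
    rfl
  | cons a as ih =>
    intro bs ha hb hlq
    have ha0 : Tw T a := ha a (List.mem_cons_self ..)
    have ha1 : ∀ b ∈ as, Tw T b := fun b hb => ha b (List.mem_cons_of_mem _ hb)
    rw [List.length_cons] at hlq ⊢
    rw [List.replicate_succ, List.cons_append, List.cons_append]
    refine req_rot hf _ _ _ _ ?_ ?_ ha0.2.1 (List.length_finRange) ?_ ?_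
    · intro b hb'
      rw [List.mem_append] at hb'
      rcases hb' with hb' | hb'
      · exact (ha1 b hb').2.1
      · exact hb b hb'
    · intro b hb'
      rw [List.mem_append] at hb'
      rcases hb' with hb' | hb'
      · rw [List.eq_of_mem_replicate hb', List.length_finRange]
      · exact hb b hb'
    · simp
    · intro js h1 h2 h3
      have h4 := ih (bs ++ [a]) ha1 (by
        intro b hb'
        rw [List.mem_append, List.mem_singleton] at hb'
        rcases hb' with hb' | hb'
        · exact hb b hb'
        · rw [hb']
          exact ha0.2.1) (by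
        rw [List.length_append, List.length_singleton]
        omega) js h1 h2 (by
        rw [h3]
        simp only [List.length_append, List.length_cons, List.length_nil]
        omega)
      rw [← List.append_assoc] at h4
      rw [h4, ← List.append_assoc]
      refine req_last hp hf hL hq hl (List.replicate as.length (List.finRange k) ++ bs) a ha0 ?_ js
        h1 h2 ?_
      · simp only [List.length_append, List.length_replicate]
        omega
      · rw [h3]
        simp only [List.length_append, List.length_replicate, List.length_singleton]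

theorem trw_id : ∀ (js : List ℕ) (r : ℕ), js.length = r →
    (trw js (List.replicate r (List.finRange k)) : List (Idx kx k)) = rws js := by
  intro js
  induction js with
  | nil =>
    intro r _
    simp [trw, rws]
  | cons j js ih =>
    intro r hr
    cases r with
    | zero => simp at hr
    | succ r =>
      have ht : (trw (j :: js) (List.replicate (r + 1) (List.finRange k)) : List (Idx kx k)) =
        prt j 0 (List.finRange k) ++ trw js (List.replicate r (List.finRange k)) := rfl
      rw [ht, ih r (by simpa using hr)]
      rfl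

end

theorem pf_TWI : T_TWI := by
  intro kx k L T q hp hf hL hq n l js js' as hl hjs hn hlq hjs' hn' hlen has hTw
  have hnd : js.Nodup := hjs.imp fun hab => ne_of_lt hab
  have h1 := req_all hp hf hL hq hl as [] hTw (by simp) (by simp [has, hlq]) js' hjs' hn'
    (by simp [has, hlen])
  rw [List.append_nil, List.append_nil, trw_id js' _ (by rw [has, hlen])] at h1
  rw [h1]
  exact step_F hp hq hl hjs' hnd hn' hn hlen (hlen ▸ hlq)

end Pool.Agent.H40.FK
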